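import Mathlib
import Pool.Agent.X199.BohrZ2

/-!
# The integers with the Bohr topology are not a continuous homomorphic image of a reflexive
precompact abelian group
-/

open Topology Filter Set

universe u v

namespace Pool.Agent.Results.MP_0995d8_gt.BohrIntegers

open Pool.Agent.X199.BohrZ

/-- **Main theorem.**  (1) `ZB`, the integers with the coarsest topology making all characters
`n ↦ t ^ n` continuous, is a Hausdorff precompact group, and no reflexive precompact abelian group
admits a continuous homomorphism onto it.  (2) More generally, if some reflexive precompact abelian
group admits a continuous homomorphism onto `H`, then every compact subset of the dual group of `H`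
(compact-open topology) is finite. -/
theorem result :
    (IsTopologicalGroup ZB ∧ T2Space ZB ∧ Precompact ZB ∧
      ∀ (G : Type u) [CommGroup G] [TopologicalSpace G] [IsTopologicalGroup G],
        Precompact G → Reflexive G → ∀ f : G →ₜ* ZB, ¬ Function.Surjective f) ∧
    ∀ (G : Type u) [CommGroup G] [TopologicalSpace G] [IsTopologicalGroup G]
      (H : Type v) [CommGroup H] [TopologicalSpace H] [IsTopologicalGroup H],
      Precompact G → Reflexive G → ∀ f : G →ₜ* H, Function.Surjective f →
        ∀ C : Set (PontryaginDual H), IsCompact C → C.Finite := by
  refine ⟨⟨inferInstance, inferInstance, precompact_ZB, ?_⟩, ?_⟩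
  · intro G _ _ _ hp hr f
    exact not_image G hp hr f
  · intro G _ _ _ H _ _ _ hp hr f hf C hC
    exact finite_of_surjective hp hr f hf C hC

end Pool.Agent.Results.MP_0995d8_gt.BohrIntegers
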